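import Mathlib
import Pool.Agent.X197.PropS3

namespace Pool.Agent.Results.MP_973dba_an.BidualFails

open Pool.Agent.X197.PropS

set_option maxSynthPendingDepth 3

/-- There is a Banach space with uniform property (S) whose bidual fails uniform property (S). -/
theorem result : ∃ (X : Type) (_ : NormedAddCommGroup X) (_ : NormedSpace ℝ X),
    CompleteSpace X ∧ UniformS X ∧ ¬ UniformS (StrongDual ℝ (StrongDual ℝ X)) :=
  ⟨X1, inferInstance, inferInstance, inferInstance, uniformS_X1, not_uniformS_bid⟩

end Pool.Agent.Results.MP_973dba_an.BidualFails
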